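import Pool.Agent.Y300.LC.Stm

/-!
# (ST2) the first limit `s → 0`
-/

set_option autoImplicit false

open PowerSeries Finset Filter Topology

namespace Pool.Agent.Y366.LC

open Pool.Agent.Y300.LC

theorem rel_sol (hs : S_SOL) (hr : S_REL) (N : ℕ) (hN : 2 ≤ N) (p q : ℂ) :
    Rel N p q (sol N p q) :=
  hr ℂ N p q _ hN (Classical.epsilon_spec (hs ℂ N p q hN).exists)

theorem contA (hp : S_POLY) (N j m : ℕ) (hN : 2 ≤ N) : Continuous fun s : ℂ => A N s 1 j m := by
  obtain ⟨P, hP⟩ := (hp N j m hN).1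
  simp only [hP]
  refine (MvPolynomial.continuous_eval P).comp (continuous_pi fun i => ?_)
  fin_cases i
  · exact continuous_id
  · exact continuous_const

theorem contB (hp : S_POLY) (N j m : ℕ) (hN : 2 ≤ N) : Continuous fun s : ℂ => B N s 1 j m := by
  obtain ⟨P, hP⟩ := (hp N j m hN).2
  simp only [hP]
  refine (MvPolynomial.continuous_eval P).comp (continuous_pi fun i => ?_)
  fin_cases i
  · exact continuous_id
  · exact continuous_const

/-- the key relation -/
theorem keyA (hs : S_SOL) (hr : S_REL) (N : ℕ) (hN : 2 ≤ N) (s : ℂ) (m : ℕ) :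
    ((m : ℂ) - N) * A N s 1 1 m = s * A N s 1 N m - N * (if m = 0 then 1 else 0) := by
  have R := rel_sol hs hr N hN s 1
  have h2 := R.r2 0 m
  have h3 := R.r3 0 m
  rw [R.r7] at h2 h3
  simp only [zero_add, Nat.cast_zero, one_mul] at h2 h3
  simp only [A]
  linear_combination h3 - ((N : ℂ) + 1) * h2

theorem B_low (hs : S_SOL) (hr : S_REL) (N : ℕ) (hN : 2 ≤ N) (t : ℂ) (k m : ℕ) (h : m < k) :
    B N 1 t k m = 0 := (rel_sol hs hr N hN 1 t).r5 k m h

theorem B_N (hs : S_SOL) (hr : S_REL) (N : ℕ) (hN : 2 ≤ N) (t : ℂ) (k : ℕ) (h1 : 2 ≤ k)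
    (h2 : k ≤ N - 1) : B N 1 t k N = 0 := by
  have R := rel_sol hs hr N hN 1 t
  have h3 := R.r1 k N
  rw [R.r5 (k + N - 1) N (by omega), R.r5 (k + N) N (by omega), mul_zero, mul_zero, add_zero,
    mul_zero] at h3
  refine (mul_eq_zero.1 h3).resolve_left ?_
  intro h
  have : N = k := Nat.cast_injective (sub_eq_zero.1 h)
  omega

theorem B_1N (hs : S_SOL) (hr : S_REL) (N : ℕ) (hN : 2 ≤ N) (t : ℂ) :
    B N 1 t N N - ((N : ℂ) - 1) * B N 1 t 1 N = 0 := by
  have R := rel_sol hs hr N hN 1 t
  have h3 := R.r1 1 N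
  rw [show 1 + N - 1 = N by omega, R.r6 N, R.r5 (1 + N) N (by omega)] at h3
  simp only [B, R.r6 N]
  simp only [Nat.cast_one, one_mul, mul_zero, add_zero] at h3
  rw [h3, sub_self]

/-- the family for all `s` -/
noncomputable def GG (N : ℕ) (t s : ℂ) : (J N ⊕ J N) → ℕ → ℂ :=
  Sum.elim (fun x m => if x.1.1 = 1 ∧ 2 ≤ x.1.2 ∧ x.1.2 ≤ N - 1 then
      A N s 1 N m * B N 1 t x.1.2 m / ((m : ℂ) - N)
    else if x.1.1 = 1 ∧ x.1.2 = N then
      A N s 1 N m * (B N 1 t N m - ((N : ℂ) - 1) * B N 1 t 1 m) / ((m : ℂ) - N)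
    else A N s 1 x.1.1 m * B N 1 t x.1.2 m)
    (fun x m => A N 1 t x.1.1 m * B N s 1 x.1.2 m)

theorem GG_zero (N : ℕ) (t : ℂ) : GG N t 0 = fam1 N t := rfl

theorem GG_cont (hp : S_POLY) (N : ℕ) (hN : 2 ≤ N) (t : ℂ) (x : J N ⊕ J N) (m : ℕ) :
    Continuous fun s => GG N t s x m := by
  rcases x with x | x
  · simp only [GG, Sum.elim_inl]
    split_ifs
    · exact ((contA hp N N m hN).mul_const _).div_const _
    · exact ((contA hp N N m hN).mul_const _).div_const _
    · exact (contA hp N _ m hN).mul_const _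
  · simp only [GG, Sum.elim_inr]
    exact (contB hp N _ m hN).const_mul _

theorem GG_mem (hs : S_SOL) (hr : S_REL) (N : ℕ) (hN : 6 ≤ N) (t s : ℂ) (hs0 : s ≠ 0)
    (x : J N ⊕ J N) : GG N t s x ∈ Submodule.span ℂ (Set.range (fam N s 1 1 t)) := by
  have hN2 : 2 ≤ N := by omega
  rcases x with x | x
  · by_cases h1 : x.1.1 = 1 ∧ 2 ≤ x.1.2 ∧ x.1.2 ≤ N - 1
    · have e1 : GG N t s (Sum.inl x) = s⁻¹ • fam N s 1 1 t (Sum.inl x) := by
        funext m
        simp only [GG, fam, Sum.elim_inl, Pi.smul_apply, smul_eq_mul]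
        rw [if_pos h1, h1.1]
        have key := keyA hs hr N hN2 s m
        by_cases hm0 : m = 0
        · subst hm0
          rw [B_low hs hr N hN2 t _ 0 (by omega)]
          simp
        · by_cases hmN : m = N
          · subst hmN
            rw [B_N hs hr m hN2 t _ h1.2.1 h1.2.2]
            simp
          · rw [if_neg hm0, mul_zero, sub_zero] at key
            have hne : (m : ℂ) - N ≠ 0 := sub_ne_zero.2 fun h => hmN (Nat.cast_injective h)
            field_simp
            linear_combination (-(B N 1 t x.1.2 m)) * key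
      rw [e1]
      exact Submodule.smul_mem _ _ (Submodule.subset_span ⟨_, rfl⟩)
    · by_cases h2 : x.1.1 = 1 ∧ x.1.2 = N
      · have h11 : ((1, 1) : ℕ × ℕ) ∈ J N := by
          simp only [J, Finset.mem_filter, Finset.mem_product, Finset.mem_range]
          omega
        have e1 : GG N t s (Sum.inl x) = s⁻¹ • (fam N s 1 1 t (Sum.inl x) -
            ((N : ℂ) - 1) • fam N s 1 1 t (Sum.inl ⟨(1, 1), h11⟩)) := by
          funext m
          simp only [GG, fam, Sum.elim_inl, Pi.smul_apply, smul_eq_mul, Pi.sub_apply]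
          rw [if_neg h1, if_pos h2, h2.1, h2.2]
          have key := keyA hs hr N hN2 s m
          by_cases hm0 : m = 0
          · subst hm0
            rw [B_low hs hr N hN2 t N 0 (by omega), B_low hs hr N hN2 t 1 0 (by omega)]
            simp
          · by_cases hmN : m = N
            · subst hmN
              have h4 := B_1N hs hr m hN2 t
              rw [h4, mul_zero, zero_div]
              linear_combination (-(s⁻¹ * A m s 1 1 m)) * h4
            · rw [if_neg hm0, mul_zero, sub_zero] at key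
              have hne : (m : ℂ) - N ≠ 0 := sub_ne_zero.2 fun h => hmN (Nat.cast_injective h)
              field_simp
              linear_combination (-(B N 1 t N m - ((N : ℂ) - 1) * B N 1 t 1 m)) * key
        rw [e1]
        exact Submodule.smul_mem _ _ (Submodule.sub_mem _ (Submodule.subset_span ⟨_, rfl⟩)
          (Submodule.smul_mem _ _ (Submodule.subset_span ⟨_, rfl⟩)))
      · have e1 : GG N t s (Sum.inl x) = fam N s 1 1 t (Sum.inl x) := by
          funext m
          simp only [GG, fam, Sum.elim_inl, if_neg h1, if_neg h2]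
        rw [e1]
        exact Submodule.subset_span ⟨_, rfl⟩
  · exact Submodule.subset_span ⟨Sum.inr x, rfl⟩

theorem st2_all (hs : S_SOL) (hr : S_REL) (hp : S_POLY) (hl : S_LIM) : S_ST2 := by
  intro N r t hN hrk
  obtain ⟨b, hb1, hb2, hb3⟩ := exists_linearIndependent ℂ (Set.range (fam1 N t))
  have hfin : b.Finite := (Set.finite_range (fam1 N t)).subset hb1
  have : Fintype b := hfin.fintype
  choose e he using hb1
  have hcard : Fintype.card b = Module.finrank ℂ (Submodule.span ℂ (Set.range (fam1 N t))) := by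
    rw [← hb2]
    have := finrank_span_eq_card hb3
    rw [Subtype.range_coe] at this
    exact this.symm
  obtain ⟨s, -, h2⟩ := hl b (fun s => Submodule.span ℂ (Set.range (fam N s 1 1 t)))
    (fun s i => GG N t s (e i.2)) (fun s => FiniteDimensional.span_of_finite ℂ (Set.finite_range _))
    (fun s hs0 i => GG_mem hs hr N hN t s hs0 _)
    (fun i m => (GG_cont hp N (by omega) t _ m).continuousAt) (by
      have : (fun i : b => GG N t 0 (e i.2)) = (Subtype.val : b → ℕ → ℂ) := by
        funext i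
        rw [GG_zero]
        exact he i.2
      rw [this]
      exact hb3)
  refine ⟨s, ?_⟩
  rw [rk]
  omega

end Pool.Agent.Y366.LC
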